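import Mathlib

universe u

open Cardinal Ordinal

namespace Pool.Agent.Results.MP_553296_lc.Four

/-- The ordinals below the cardinal `κ`. -/
abbrev Below (κ : Cardinal.{u}) : Type (u + 1) := Set.Iio κ.ord

/-- `Δ(x, y) = i`. -/
def IsDelta {κ : Cardinal.{u}} (x y : Below κ → Bool) (i : Below κ) : Prop :=
  x i ≠ y i ∧ ∀ j, j < i → x j = y j

/-- A colouring of unordered pairs (a symmetric function) is `Δ`-regressive. -/
def Regressive {κ : Cardinal.{u}} (c : (Below κ → Bool) → (Below κ → Bool) → Below κ) : Prop :=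
  (∀ x y, c x y = c y x) ∧ ∀ x y i, IsDelta x y i → 0 < i.1 → c x y < i

/-- `Y` is monochromatic. -/
def Mono {κ : Cardinal.{u}} (c : (Below κ → Bool) → (Below κ → Bool) → Below κ)
    (Y : Set (Below κ → Bool)) : Prop :=
  ∃ γ, ∀ x ∈ Y, ∀ y ∈ Y, x ≠ y → c x y = γ

theorem omega_lt {κ : Cardinal.{u}} (h : ℵ₀ < κ) : ω < κ.ord := by
  rw [← ord_aleph0]; exact ord_lt_ord.2 h

/-- The natural number `n` below `κ`. -/
def nt {κ : Cardinal.{u}} (h : ℵ₀ < κ) (n : ℕ) : Below κ :=
  ⟨n, (natCast_lt_omega0 n).trans (omega_lt h)⟩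

/-- `ω` below `κ`. -/
def om {κ : Cardinal.{u}} (h : ℵ₀ < κ) : Below κ := ⟨ω, omega_lt h⟩

theorem nt_lt {κ : Cardinal.{u}} (h : ℵ₀ < κ) {m n : ℕ} : nt h m < nt h n ↔ m < n := by
  change (m : Ordinal.{u}) < n ↔ _
  exact Nat.cast_lt

theorem nt_lt_om {κ : Cardinal.{u}} (h : ℵ₀ < κ) (n : ℕ) : nt h n < om h :=
  natCast_lt_omega0 n

theorem eq_nt {κ : Cardinal.{u}} (h : ℵ₀ < κ) {i : Below κ} (hi : i < om h) :
    ∃ n, i = nt h n := by
  obtain ⟨n, hn⟩ := lt_omega0.1 hi
  exact ⟨n, Subtype.ext hn⟩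

theorem eq_of_lt_succ {κ : Cardinal.{u}} (h : ℵ₀ < κ) {i : Below κ} {n : ℕ}
    (h1 : i < nt h (n + 1)) (h2 : ¬ i < nt h n) : i = nt h n := by
  obtain ⟨k, rfl⟩ := eq_nt h (h1.trans (nt_lt_om h _))
  rw [nt_lt] at h1 h2
  rw [show k = n by omega]

section four

variable {κ : Cardinal.{u}} (h : ℵ₀ < κ) (c : (Below κ → Bool) → (Below κ → Bool) → Below κ)

/-- Agreement below `k`. -/
def Ag (k : ℕ) (x y : Below κ → Bool) : Prop := ∀ i, i < nt h k → x i = y i

/-- No colour below `n` is used in the cone of height `n + 1` determined by `t`. -/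
def P (n : ℕ) (t : Below κ → Bool) : Prop :=
  ∀ x y, x ≠ y → Ag h (n + 1) x t → Ag h (n + 1) y t → ¬ c x y < nt h n

theorem step (hc : Regressive c) (hno : ∀ Y : Set (Below κ → Bool), Mono c Y → Y.encard ≠ 4)
    (n : ℕ) (t : Below κ → Bool) (ht : P h c n t) :
    ∃ t', P h c (n + 1) t' ∧ Ag h (n + 1) t' t := by
  classical
  have up : ∀ (b : Bool), Ag h (n + 1) (Function.update t (nt h (n + 1)) b) t := fun b i hi =>
    Function.update_of_ne hi.ne _ _
  by_contra hcon
  push Not at hcon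
  have key : ∀ b : Bool, ∃ x y, x ≠ y ∧ Ag h (n + 1) x t ∧ Ag h (n + 1) y t ∧
      x (nt h (n + 1)) = b ∧ y (nt h (n + 1)) = b ∧ c x y = nt h n := fun b => by
    have h1 : ¬ P h c (n + 1) (Function.update t (nt h (n + 1)) b) := fun hp => hcon _ hp (up b)
    unfold P at h1
    push Not at h1
    obtain ⟨x, y, hxy, hx, hy, hlt⟩ := h1
    have hs : nt h (n + 1) < nt h (n + 1 + 1) := (nt_lt h).2 (by omega)
    have hx' : Ag h (n + 1) x t := fun i hi => (hx i (hi.trans hs)).trans (up b i hi)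
    have hy' : Ag h (n + 1) y t := fun i hi => (hy i (hi.trans hs)).trans (up b i hi)
    exact ⟨x, y, hxy, hx', hy', by simpa using hx _ hs, by simpa using hy _ hs,
      eq_of_lt_succ h hlt (ht x y hxy hx' hy')⟩
  obtain ⟨a, b, hab, ha, hb, ha', hb', hcab⟩ := key false
  obtain ⟨p, q, hpq, hp, hq, hp', hq', hcpq⟩ := key true
  have cross : ∀ x y, Ag h (n + 1) x t → Ag h (n + 1) y t → x (nt h (n + 1)) = false →
      y (nt h (n + 1)) = true → x ≠ y ∧ c x y = nt h n := fun x y hx hy hx' hy' => by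
    have hne : x ≠ y := fun e => by rw [e, hy'] at hx'; exact absurd hx' (by simp)
    refine ⟨hne, eq_of_lt_succ h (hc.2 x y _ ⟨by simp [hx', hy'], fun j hj =>
      (hx j hj).trans (hy j hj).symm⟩ ?_) (ht x y hne hx hy)⟩
    change (0 : Ordinal.{u}) < ((n + 1 : ℕ) : Ordinal.{u})
    exact_mod_cast Nat.succ_pos n
  obtain ⟨n1, c1⟩ := cross a p ha hp ha' hp'
  obtain ⟨n2, c2⟩ := cross a q ha hq ha' hq'
  obtain ⟨n3, c3⟩ := cross b p hb hp hb' hp'
  obtain ⟨n4, c4⟩ := cross b q hb hq hb' hq'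
  refine hno {a, b, p, q} ⟨nt h n, ?_⟩ ?_
  · intro x hx y hy hxy
    simp only [Set.mem_insert_iff, Set.mem_singleton_iff] at hx hy
    rcases hx with rfl | rfl | rfl | rfl <;> rcases hy with rfl | rfl | rfl | rfl <;>
      first
        | exact absurd rfl hxy
        | assumption
        | (rw [hc.1]; assumption)
  · rw [Set.encard_insert_of_notMem (by simp [hab, n1, n2]),
      Set.encard_insert_of_notMem (by simp [n3, n4]), Set.encard_pair hpq]
    rfl

include h in
theorem four (hc : Regressive c) : ∃ Y : Set (Below κ → Bool), Mono c Y ∧ Y.encard = 4 := by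
  classical
  by_contra hcon
  have hno : ∀ Y : Set (Below κ → Bool), Mono c Y → Y.encard ≠ 4 := fun Y h1 h2 =>
    hcon ⟨Y, h1, h2⟩
  have h0 : P h c 0 (fun _ => false) := fun x y _ _ _ hlt => by
    have : (c x y).1 < ((0 : ℕ) : Ordinal.{u}) := hlt
    simp at this
  choose f hf1 hf2 using step h c hc hno
  let t : (n : ℕ) → {t // P h c n t} := fun n =>
    Nat.rec ⟨fun _ => false, h0⟩ (fun n s => ⟨f n s.1 s.2, hf1 n s.1 s.2⟩) n
  have ht : ∀ n, Ag h (n + 1) (t (n + 1)).1 (t n).1 := fun n => hf2 n (t n).1 (t n).2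
  have hchain : ∀ k n, k ≤ n → (t n).1 (nt h k) = (t k).1 (nt h k) := fun k n hkn => by
    induction n, hkn using Nat.le_induction with
    | base => rfl
    | succ n hkn ih => rw [ht n _ ((nt_lt h).2 (by omega)), ih]
  let z : Below κ → Bool := fun i => if hi : i < om h then (t (eq_nt h hi).choose).1 i else false
  have hz : ∀ n, Ag h (n + 1) z (t n).1 := fun n i hi => by
    have hi' : i < om h := hi.trans (nt_lt_om h _)
    have e := (eq_nt h hi').choose_spec
    simp only [z, dif_pos hi']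
    generalize (eq_nt h hi').choose = k at e
    subst e
    exact (hchain k n (by have := (nt_lt h).1 hi; omega)).symm
  let y : Below κ → Bool := Function.update z (om h) (!z (om h))
  have hy : ∀ i, i < om h → z i = y i := fun i hi => (Function.update_of_ne hi.ne _ _).symm
  have hd : z (om h) ≠ y (om h) := by simp [y]
  obtain ⟨m, hm⟩ := eq_nt h (hc.2 z y (om h) ⟨hd, hy⟩ omega0_pos)
  refine (t (m + 1)).2 z y (fun e => hd (congrFun e _)) (hz _)
    (fun i hi => (hy i (hi.trans (nt_lt_om h _))).symm.trans (hz _ i hi)) ?_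
  rw [hm, nt_lt]; omega

end four

section five

open Classical in
/-- The colouring without monochromatic sets of size five. -/
noncomputable def col {κ : Cardinal.{u}} (h : ℵ₀ < κ) (e : (Below κ → Bool) → ℕ → Bool)
    (x y : Below κ → Bool) : Below κ :=
  if x (nt h 0) ≠ y (nt h 0) then om h
  else if h1 : ∃ n, x (nt h (n + 1)) ≠ y (nt h (n + 1)) then nt h (Nat.find h1)
  else if h2 : ∃ n, e x n ≠ e y n then nt h (Nat.find h2) else nt h 0

theorem five {κ : Cardinal.{u}} (h : ℵ₀ < κ) (e : (Below κ → Bool) → ℕ → Bool)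
    (he : Function.Injective e) :
    Regressive (col h e) ∧ ∀ Y, Mono (col h e) Y → Y.encard ≤ 4 := by
  classical
  refine ⟨⟨fun x y => ?_, fun x y i hi hpos => ?_⟩, ?_⟩
  · unfold col
    simp only [ne_comm (a := x _), ne_comm (a := e x _)]
  · have h0 : nt h 0 < i := by
      change ((0 : ℕ) : Ordinal.{u}) < i.1
      simpa using hpos
    have fin : ∀ k, ¬ nt h k < i → ∃ l, l < k ∧ x (nt h (l + 1)) ≠ y (nt h (l + 1)) := by
      intro k hk
      obtain ⟨l, rfl⟩ := eq_nt h ((not_lt.1 hk).trans_lt (nt_lt_om h k))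
      rw [nt_lt] at h0 hk
      obtain ⟨l, rfl⟩ : ∃ l', l = l' + 1 := ⟨l - 1, by omega⟩
      exact ⟨l, by omega, hi.1⟩
    unfold col
    rw [if_neg (not_not.2 (hi.2 _ h0))]
    split_ifs with h1 h2
    · by_contra hk
      obtain ⟨l, hl, hne⟩ := fin _ hk
      exact Nat.find_min h1 hl hne
    · by_contra hk
      obtain ⟨l, -, hne⟩ := fin _ hk
      exact h1 ⟨l, hne⟩
    · exact h0
  · rintro Y ⟨γ, hγ⟩
    have inj : ∀ g : (Below κ → Bool) → Bool × Bool, Set.InjOn g Y → Y.encard ≤ 4 := fun g hg => by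
      rw [← hg.encard_image]
      refine (Set.encard_le_encard (Set.subset_univ _)).trans ?_
      simp
    by_cases hγo : γ < om h
    · obtain ⟨m, rfl⟩ := eq_nt h hγo
      refine inj (fun y => (y (nt h (m + 1)), e y m)) fun x hx y hy hxy => ?_
      by_contra hne
      have h3 := hγ x hx y hy hne
      simp only [Prod.mk.injEq] at hxy
      unfold col at h3
      split_ifs at h3 with h0 h1 h2
      · exact (nt_lt_om h m).ne' h3
      · have : Nat.find h1 = m := le_antisymm (not_lt.1 fun hl => ((nt_lt h).2 hl).ne' h3)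
          (not_lt.1 fun hl => ((nt_lt h).2 hl).ne h3)
        exact (this ▸ Nat.find_spec h1) hxy.1
      · have : Nat.find h2 = m := le_antisymm (not_lt.1 fun hl => ((nt_lt h).2 hl).ne' h3)
          (not_lt.1 fun hl => ((nt_lt h).2 hl).ne h3)
        exact (this ▸ Nat.find_spec h2) hxy.2
      · push Not at h2
        exact hne (he (funext h2))
    · refine inj (fun y => (y (nt h 0), false)) fun x hx y hy hxy => ?_
      by_contra hne
      have h3 := hγ x hx y hy hne
      simp only [Prod.mk.injEq] at hxy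
      unfold col at h3
      rw [if_neg (not_not.2 hxy.1)] at h3
      split_ifs at h3 <;> exact hγo (h3 ▸ nt_lt_om h _)

end five

/-- (1) For every uncountable cardinal `κ`, every `Δ`-regressive colouring of `[2^κ]^2` has a
monochromatic set of size four. (2) If `κ` is uncountable and `2^κ = 2^ℵ₀`, some `Δ`-regressive
colouring of `[2^κ]^2` has no monochromatic set with more than four elements. -/
theorem result :
    (∀ κ : Cardinal.{u}, ℵ₀ < κ →
      ∀ c : (Below κ → Bool) → (Below κ → Bool) → Below κ, Regressive c →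
        ∃ Y : Set (Below κ → Bool), Mono c Y ∧ Y.encard = 4) ∧
    (∀ κ : Cardinal.{u}, ℵ₀ < κ → (2 : Cardinal.{u}) ^ κ = 2 ^ ℵ₀ →
      ∃ c : (Below κ → Bool) → (Below κ → Bool) → Below κ, Regressive c ∧
        ∀ Y : Set (Below κ → Bool), Mono c Y → Y.encard ≤ 4) := by
  refine ⟨fun κ h c hc => four h c hc, fun κ h h2 => ?_⟩
  have : Nonempty ((Below κ → Bool) ↪ (ℕ → Bool)) := by
    rw [← Cardinal.lift_mk_le']
    have e1 : #(Below κ → Bool) = Cardinal.lift.{u + 1} ((2 : Cardinal.{u}) ^ κ) := by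
      simp [Below, Ordinal.mk_Iio_ordinal]
    rw [e1, h2]
    simp
  obtain ⟨e⟩ := this
  exact ⟨col h e, five h e e.injective⟩

end Pool.Agent.Results.MP_553296_lc.Four
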